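import Pool.Agent.H20.PP.Split

open CategoryTheory CategoryTheory.Limits

universe u v w

namespace Pool.Agent.H31.Kept.EllipticK3V1

open Pool.Agent.H2.OC Pool.Agent.H20.K3 Pool.Agent.H20.PP H25.KP

/-- Parshin's conjecture for elliptic K3 surfaces. (1) Voisin's conjecture on zero-cycles, for the
surface `W` in `P(1,1,4,6)` with the equation `y^2 = x^3 + a x + b` over an algebraically closed field of
characteristic different from `2` and `3`: `576 ((P - P') × (Q - Q') - (Q - Q') × (P - P'))` is rationally
equivalent to zero on `W × W`. (2) Elliptic K3 surfaces `S` over the algebraic closure of the field with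
`p ≥ 5` elements have Voisin's property. (3) Let `T` be a theory with an action of the Chow rings, and
with the known properties over the algebraic closure of a finite field, for example the groups
`K_n(X)_ℚ` for a fixed `n ≥ 1`, or the numerically trivial cycle classes. Let `S` and `S'` be surfaces with
Voisin's property, or regular surfaces whose transcendental motives are direct summands of sums of
transcendental motives of such surfaces, and `C`, `C'` curves. Then `T` vanishes on `S` and on `S × C`, it has
only elements of weight `2` on `S × S'` and on `S × C × C'`, and these are symmetric on `S × S` if `S` has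
Voisin's property. (4) `K_n(B)_ℚ = 0`, `n ≥ 1`, for all smooth proper dg categories `B` which are direct
summands (as noncommutative motives) of finite sums of points, products of at most three curves,
surfaces `S` and products `S × C`. -/
theorem result (p : ℕ) [Fact p.Prime] (hp : 5 ≤ p) :
    (∀ (K : Type) [Field K] [IsAlgClosed K] (a b : MvPolynomial (Fin 2) K),
      (2 : K) ≠ 0 → (3 : K) ≠ 0 → a.IsHomogeneous 8 → b.IsHomogeneous 12 → disc a b ≠ 0 →
      (∃ u0 u1 v0 v1 : K, u0 * v1 ≠ u1 * v0 ∧ ev (disc a b) u0 u1 = 0 ∧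
        ev (disc a b) v0 v1 = 0) →
      ∀ P P' Q Q' : Pt K, OnW a b P → OnW a b P' → OnW a b Q → OnW a b Q' →
        576 • (prod P P' Q Q' - prod Q Q' P P') ∈ RatEq a b) ∧
    ∀ {V : Type u} [Category.{v} V] [HasFiniteProducts V] (A : Rings.{u, v, w} V)
      [Chow A] [Chow2 A] (G : Grading A),
      (∀ S, Nonempty (Elliptic (AlgebraicClosure (ZMod p)) G S) → Voisin G S) ∧
      (∀ (T : Theory A), H8.PP.Facts p G T → ∀ S, Covered G S →
        Zero T S ∧ (∀ C, A.curve C → Zero T (dp S C)) ∧
        (∀ S', Covered G S' → ∀ i, i ≠ 2 → ∀ x ∈ T.wt (dp S S') i, x = 0) ∧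
        (∀ C C', A.curve C → A.curve C' → ∀ i, i ≠ 2 → ∀ x ∈ T.wt (dp S (dp C C')) i, x = 0) ∧
        (Voisin G S → ∀ x ∈ T.wt (dp S S) 2, T.pull (sw S) x = x)) ∧
      ∀ (T : ℕ → Theory A), (∀ n, 1 ≤ n → H8.PP.Facts p G (T n)) →
        ∀ (N : NC T) (L : List V) (B : N.D), (∀ X ∈ L, Known G X) → Summand N L B →
          ∀ n, 1 ≤ n → ∀ x : (N.K n).obj B, x = 0 := by
  refine ⟨?_, ?_⟩
  · rintro K _ _ a b h2 h3 ha hb hD ⟨u0, u1, v0, v1, huv, hu, hv⟩ P P' Q Q' hP hP' hQ hQ'
    have _ : NZ6 K := ⟨h2, h3⟩
    exact H25.KP.main ha hb hD huv hu hv hP hP' hQ hQ'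
  · intro V _ _ A _ _ G
    have _ := nz6 hp
    refine ⟨fun S hS => hS.some.voisin, ?_, ?_⟩
    · intro T H S h
      refine ⟨h.zero H, fun C hC => h.zero_curve H hC, fun S' h' i hi => h.wt H h' hi,
        fun C C' hC hC' i hi => h.wt_curves H hC hC' hi, ?_⟩
      rintro ⟨hd, o, hR, hS⟩ x hx
      exact H8.PP.sym_square H hS (h.zero H) hx
    · intro T H N L B hL hB n hn x
      exact zero_summand N (fun X hX => (hL X hX).zero (H n hn)) hB x

end Pool.Agent.H31.Kept.EllipticK3V1
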